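import Mathlib
import Pool.Agent.Lib.MP_b6277e_co.Final

/-!
Full answer to Q1 of MP_b6277e_co: every superpattern of `T₂ ⊕ T₂` is spectrally arbitrary.
-/

namespace Pool.Agent.Results.MP_b6277e_co.AllSuperpatterns

open Pool.Agent.Lib.MP_b6277e_co

theorem result : ∀ S : SignPattern 4, IsSuperpattern S T2T2 → SpectrallyArbitrary S :=
  all_superpatterns

end Pool.Agent.Results.MP_b6277e_co.AllSuperpatterns
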